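import Pool.Agent.W323.BRTaylor

/-!
Counting progressions, interpolation between colourings.
-/

namespace Pool.Agent.W323.BR

open Finset

/-- clipped linear function -/
noncomputable def hh (n q : ℝ) (t : ℝ) : ℝ := max (n - q * t) 0

lemma hh_nonneg (n q t : ℝ) : 0 ≤ hh n q t := le_max_right _ _

lemma hh_up (n q : ℝ) (hq : 0 ≤ q) (t : ℝ) :
    2 * q * hh n q (t + 1) ≤ hh n q t ^ 2 - hh n q (t + 1) ^ 2 := by
  unfold hh
  rcases le_total (n - q * (t + 1)) 0 with h | h
  · rw [max_eq_right h]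
    nlinarith [sq_nonneg (max (n - q * t) 0)]
  · rw [max_eq_left h, max_eq_left (by nlinarith)]
    nlinarith

lemma hh_dn (n q : ℝ) (hq : 0 ≤ q) (t : ℝ) :
    hh n q t ^ 2 - hh n q (t + 1) ^ 2 ≤ 2 * q * hh n q t := by
  unfold hh
  rcases le_total (n - q * (t + 1)) 0 with h | h
  · rw [max_eq_right h]
    rcases le_total (n - q * t) 0 with h2 | h2
    · rw [max_eq_right h2]; simp
    · rw [max_eq_left h2]; nlinarith
  · rw [max_eq_left h, max_eq_left (by nlinarith)]
    nlinarith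

lemma sum_hh_up (n q : ℝ) (hq : 0 ≤ q) (m : ℕ) :
    2 * q * ∑ d ∈ range m, hh n q ((d : ℝ) + 1) ≤ hh n q 0 ^ 2 - hh n q m ^ 2 := by
  induction m with
  | zero => simp
  | succ m ih =>
    rw [Finset.sum_range_succ, mul_add]
    have := hh_up n q hq m
    push_cast
    linarith

lemma sum_hh_dn (n q : ℝ) (hq : 0 ≤ q) (m : ℕ) :
    hh n q 1 ^ 2 - hh n q ((m : ℝ) + 1) ^ 2 ≤ 2 * q * ∑ d ∈ range m, hh n q ((d : ℝ) + 1) := by
  induction m with
  | zero => simp
  | succ m ih =>
    rw [Finset.sum_range_succ, mul_add]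
    have := hh_dn n q hq ((m : ℝ) + 1)
    push_cast
    linarith

lemma card_T (k n : ℕ) (hk : 2 ≤ k) :
    ((T k n).card : ℝ) = ∑ d ∈ range n, hh n ((k : ℝ) - 1) ((d : ℝ) + 1) := by
  have hk' : (2 : ℤ) ≤ k := by exact_mod_cast hk
  have h1 : (T k n).card = ∑ d ∈ range n, (((n : ℤ) - ((k : ℤ) - 1) * ((d : ℤ) + 1)).toNat) := by
    have h2 : T k n = (range n).biUnion (fun d =>
        (Icc (1 : ℤ) ((n : ℤ) - ((k : ℤ) - 1) * ((d : ℤ) + 1))).image (fun a => (a, (d : ℤ) + 1))) := by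
      ext p
      rw [mem_T hk, mem_biUnion]
      constructor
      · rintro ⟨h1, h2, h3⟩
        have h4 : p.2 ≤ ((k : ℤ) - 1) * p.2 := by nlinarith
        refine ⟨(p.2 - 1).toNat, ?_, ?_⟩
        · rw [mem_range]; omega
        · rw [mem_image]
          have h5 : (((p.2 - 1).toNat : ℕ) : ℤ) + 1 = p.2 := by omega
          refine ⟨p.1, ?_, ?_⟩
          · rw [mem_Icc, h5]
            exact ⟨h1, by linarith⟩
          · rw [h5]
      · rintro ⟨d, _, hp⟩
        rw [mem_image] at hp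
        obtain ⟨a, ha, rfl⟩ := hp
        rw [mem_Icc] at ha
        refine ⟨ha.1, ?_, ?_⟩
        · show (1 : ℤ) ≤ (d : ℤ) + 1
          omega
        · show a + ((k : ℤ) - 1) * ((d : ℤ) + 1) ≤ n
          linarith [ha.2]
    rw [h2, card_biUnion]
    · refine Finset.sum_congr rfl fun d _ => ?_
      rw [card_image_of_injective _ (fun a b h => (Prod.mk.inj h).1), Int.card_Icc]
      congr 1
      ring
    · intro d _ d' _ hdd
      rw [Function.onFun, Finset.disjoint_left]
      intro p hp hp'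
      rw [mem_image] at hp hp'
      obtain ⟨a, _, ha⟩ := hp
      obtain ⟨b, _, hb⟩ := hp'
      rw [← hb] at ha
      have := (Prod.mk.inj ha).2
      apply hdd
      omega
  rw [h1]
  push_cast
  refine Finset.sum_congr rfl fun d _ => ?_
  unfold hh
  rw [← Int.cast_natCast (R := ℝ) ((n : ℤ) - ((k : ℤ) - 1) * ((d : ℤ) + 1)).toNat, Int.ofNat_toNat]
  push_cast
  ring_nf

lemma card_T_le (k n : ℕ) (hk : 2 ≤ k) :
    2 * ((k : ℝ) - 1) * ((T k n).card : ℝ) ≤ (n : ℝ) ^ 2 := by
  have hk' : (2 : ℝ) ≤ k := by exact_mod_cast hk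
  rw [card_T k n hk]
  have := sum_hh_up n ((k : ℝ) - 1) (by linarith) n
  have h2 : hh (n : ℝ) ((k : ℝ) - 1) 0 = n := by
    unfold hh
    rw [mul_zero, sub_zero, max_eq_left (by positivity)]
  rw [h2] at this
  nlinarith [sq_nonneg (hh (n : ℝ) ((k : ℝ) - 1) n)]

lemma card_T_ge (k n : ℕ) (hk : 2 ≤ k) (hn : k ≤ n) :
    ((n : ℝ) - ((k : ℝ) - 1)) ^ 2 ≤ 2 * ((k : ℝ) - 1) * ((T k n).card : ℝ) := by
  have hk' : (2 : ℝ) ≤ k := by exact_mod_cast hk
  have hn' : (k : ℝ) ≤ n := by exact_mod_cast hn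
  rw [card_T k n hk]
  have := sum_hh_dn n ((k : ℝ) - 1) (by linarith) n
  have h2 : hh (n : ℝ) ((k : ℝ) - 1) 1 = n - (k - 1) := by
    unfold hh
    rw [mul_one, max_eq_left (by linarith)]
  have h3 : hh (n : ℝ) ((k : ℝ) - 1) ((n : ℝ) + 1) = 0 := by
    unfold hh
    rw [max_eq_right (by nlinarith)]
  rw [h2, h3] at this
  linarith

lemma mono_le_card (k : ℕ) (n : ℤ) {r : ℕ} (χ : ℤ → Fin r) : mono k n χ ≤ (T k n).card := by
  unfold mono
  exact Finset.card_filter_le _ _

lemma mono_const (k : ℕ) (n : ℤ) {r : ℕ} (c : Fin r) : mono k n (fun _ => c) = (T k n).card := by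
  unfold mono
  congr 1
  rw [Finset.filter_true_of_mem]
  intro p _ i _
  rfl

lemma mono_congr (k : ℕ) (hk : 2 ≤ k) (n : ℤ) {r : ℕ} (χ χ' : ℤ → Fin r)
    (h : ∀ x, 1 ≤ x → x ≤ n → χ x = χ' x) : mono k n χ = mono k n χ' := by
  unfold mono
  congr 1
  refine Finset.filter_congr fun p hp => ?_
  have h0 : χ p.1 = χ' p.1 := by
    have := term_mem hk hp (i := 0) (by omega)
    simp at this
    exact h _ this.1 this.2
  constructor
  · intro h1 i hi
    have := term_mem hk hp hi
    rw [← h _ this.1 this.2, ← h0]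
    exact h1 i hi
  · intro h1 i hi
    have := term_mem hk hp hi
    rw [h _ this.1 this.2, h0]
    exact h1 i hi

/-- progressions through a point -/
lemma card_through (k n : ℕ) (hk : 2 ≤ k) (x : ℤ) :
    ((T k n).filter (fun p : ℤ × ℤ => ∃ i ∈ range k, p.1 + i * p.2 = x)).card ≤ k * n := by
  have h1 : (T k n).filter (fun p : ℤ × ℤ => ∃ i ∈ range k, p.1 + i * p.2 = x) ⊆
      (range k).biUnion (fun i => (T k n).filter (fun p : ℤ × ℤ => p.1 + i * p.2 = x)) := by
    intro p hp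
    rw [mem_filter] at hp
    obtain ⟨hp1, i, hi, hx⟩ := hp
    rw [mem_biUnion]
    exact ⟨i, hi, mem_filter.mpr ⟨hp1, hx⟩⟩
  refine (Finset.card_le_card h1).trans ?_
  refine Finset.card_biUnion_le.trans ?_
  calc ∑ i ∈ range k, ((T k n).filter (fun p : ℤ × ℤ => p.1 + i * p.2 = x)).card
      ≤ ∑ i ∈ range k, n := by
        refine Finset.sum_le_sum fun i _ => ?_
        have h2 : ((T k n).filter (fun p : ℤ × ℤ => p.1 + i * p.2 = x)).card ≤
            (Icc (1 : ℤ) n).card := by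
          refine Finset.card_le_card_of_injOn (fun p => p.2) ?_ ?_
          · intro p hp
            rw [mem_coe, mem_filter] at hp
            have hT := hp.1
            unfold T at hT
            rw [mem_filter, mem_product] at hT
            exact hT.1.2
          · intro p hp q hq hpq
            rw [mem_coe, mem_filter] at hp hq
            dsimp only at hpq
            have e1 := hp.2
            have e2 := hq.2
            rw [hpq] at e1
            exact Prod.ext (by linarith) hpq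
        rw [Int.card_Icc] at h2
        have : ((n : ℤ) + 1 - 1).toNat = n := by omega
        rwa [this] at h2
    _ = k * n := by simp

lemma mono_step (k n : ℕ) (hk : 2 ≤ k) {r : ℕ} (χ χ' : ℤ → Fin r) (x : ℤ)
    (h : ∀ y, y ≠ x → χ y = χ' y) : mono k n χ' ≤ mono k n χ + k * n := by
  refine le_trans ?_ (Nat.add_le_add_left (card_through k n hk x) _)
  unfold mono
  rw [← Finset.card_union_add_card_inter]
  refine le_trans (Finset.card_le_card ?_) (Nat.le_add_right _ _)
  intro p hp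
  rw [mem_filter] at hp
  rw [mem_union, mem_filter, mem_filter]
  by_cases hx : ∃ i ∈ range k, p.1 + i * p.2 = x
  · right; exact ⟨hp.1, hx⟩
  · left
    push Not at hx
    refine ⟨hp.1, fun i hi => ?_⟩
    have h0 := hx 0 (by rw [mem_range]; omega)
    simp at h0
    rw [h _ (hx i (mem_range.mpr hi)), h _ h0]
    exact hp.2 i hi

lemma mono_step_abs (k n : ℕ) (hk : 2 ≤ k) {r : ℕ} (χ χ' : ℤ → Fin r) (x : ℤ)
    (h : ∀ y, y ≠ x → χ y = χ' y) : |(mono k n χ' : ℝ) - mono k n χ| ≤ k * n := by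
  have h1 := mono_step k n hk χ χ' x h
  have h2 := mono_step k n hk χ' χ x (fun y hy => (h y hy).symm)
  have h1' : (mono k n χ' : ℝ) ≤ mono k n χ + k * n := by exact_mod_cast h1
  have h2' : (mono k n χ : ℝ) ≤ mono k n χ' + k * n := by exact_mod_cast h2
  rw [abs_le]
  exact ⟨by linarith, by linarith⟩

lemma disc_ivt (f : ℕ → ℝ) (B t : ℝ) (hB : 0 ≤ B) (hf : ∀ m, |f (m + 1) - f m| ≤ B)
    (h0 : f 0 ≤ t) (n : ℕ) (hn : t ≤ f n) : ∃ m, |f m - t| ≤ B := by
  induction n with
  | zero =>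
    refine ⟨0, ?_⟩
    have : f 0 = t := le_antisymm h0 hn
    rw [this]; simpa using hB
  | succ n ih =>
    by_cases h : t ≤ f n
    · exact ih h
    · push Not at h
      refine ⟨n, ?_⟩
      have := (abs_le.mp (hf n)).2
      rw [abs_le]
      exact ⟨by linarith, by linarith⟩

lemma interpolate (k n : ℕ) (hk : 2 ≤ k) {r : ℕ} (χ1 χ0 : ℤ → Fin r) (t : ℝ)
    (h1 : (mono k n χ1 : ℝ) ≤ t) (h0 : t ≤ mono k n χ0) :
    ∃ χ : ℤ → Fin r, |(mono k n χ : ℝ) - t| ≤ k * n := by
  have := disc_ivt (fun m => (mono k n (fun x => if x ≤ (m : ℤ) then χ0 x else χ1 x) : ℝ))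
    (k * n) t (by positivity) ?_ ?_ n ?_
  · obtain ⟨m, hm⟩ := this
    exact ⟨_, hm⟩
  · intro m
    refine mono_step_abs k n hk _ _ ((m : ℤ) + 1) ?_
    intro y hy
    by_cases hym : y ≤ (m : ℤ)
    · rw [if_pos hym, if_pos (by push_cast; linarith)]
    · rw [if_neg hym, if_neg]
      push_cast
      intro h
      apply hym
      rcases lt_or_eq_of_le h with h3 | h3
      · exact Int.lt_add_one_iff.mp h3
      · exact absurd h3 hy
  · rw [mono_congr k hk n _ χ1]
    · exact h1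
    · intro x hx _
      rw [if_neg]
      push_cast
      linarith
  · rw [mono_congr k hk n _ χ0]
    · exact h0
    · intro x _ hx
      rw [if_pos hx]

end Pool.Agent.W323.BR
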