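import Mathlib

/-!
Quadratic form estimate for arithmetic progressions in `[1, n]`:
a function supported on three short intervals has a negative pair form.
-/

namespace Pool.Agent.W323.BR

open Finset

/-- pairs `(a, d)` with `a ≥ 1`, `d ≥ 1`, `a + (k-1) d ≤ n`. -/
noncomputable def T (k : ℕ) (n : ℤ) : Finset (ℤ × ℤ) :=
  ((Icc 1 n) ×ˢ (Icc 1 n)).filter (fun p : ℤ × ℤ => p.1 + ((k : ℤ) - 1) * p.2 ≤ n)

lemma mem_T {k : ℕ} (hk : 2 ≤ k) {n : ℤ} {p : ℤ × ℤ} :
    p ∈ T k n ↔ 1 ≤ p.1 ∧ 1 ≤ p.2 ∧ p.1 + ((k : ℤ) - 1) * p.2 ≤ n := by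
  unfold T
  rw [mem_filter, mem_product, mem_Icc, mem_Icc]
  have hk' : (2 : ℤ) ≤ k := by exact_mod_cast hk
  constructor
  · rintro ⟨⟨⟨h1, h2⟩, h3, h4⟩, h5⟩
    exact ⟨h1, h3, h5⟩
  · rintro ⟨h1, h2, h3⟩
    have : p.2 ≤ ((k : ℤ) - 1) * p.2 := by nlinarith
    refine ⟨⟨⟨h1, by linarith⟩, h2, by linarith⟩, h3⟩

/-- number of progressions with `i`-th term in `U` and `j`-th term in `V` -/
noncomputable def N (k : ℕ) (n : ℤ) (i j : ℕ) (U V : Finset ℤ) : ℕ :=
  ((T k n).filter (fun p : ℤ × ℤ => p.1 + i * p.2 ∈ U ∧ p.1 + j * p.2 ∈ V)).card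

/-- indicator -/
def ind (U : Finset ℤ) (x : ℤ) : ℝ := if x ∈ U then 1 else 0

lemma sum_ind (k : ℕ) (n : ℤ) (i j : ℕ) (U V : Finset ℤ) :
    ∑ p ∈ T k n, ind U (p.1 + i * p.2) * ind V (p.1 + j * p.2) = (N k n i j U V : ℝ) := by
  unfold N ind
  rw [Finset.card_filter]
  push_cast
  refine Finset.sum_congr rfl fun p _ => ?_
  by_cases h1 : p.1 + i * p.2 ∈ U <;> by_cases h2 : p.1 + j * p.2 ∈ V <;> simp [h1, h2]

/-- the geometric set up -/
structure Geo (k : ℕ) (n s D u : ℤ) : Prop where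
  hk : 3 ≤ k
  hu : 1 ≤ u
  hD : 6 * u ≤ D
  hs : ((k : ℤ) - 1) * D ≤ s
  hn : s + ((k : ℤ) - 1) * D = n
  hdvd : ∀ g : ℕ, 1 ≤ g → g < k → (g : ℤ) ∣ u

section
variable {k : ℕ} {n s D u : ℤ}

lemma aux_gap (G : Geo k n s D u) : 4 * ((k : ℤ) - 1) * u + 4 * u ≤ ((k : ℤ) - 1) * D := by
  have hk : (3 : ℤ) ≤ k := by exact_mod_cast G.hk
  have h1 := G.hD
  have h2 := G.hu
  nlinarith [mul_le_mul_of_nonneg_left h1 (show (0 : ℤ) ≤ (k : ℤ) - 1 by linarith)]

noncomputable def I1 (s u : ℤ) : Finset ℤ := Ioc (s + 2 * u) (s + 3 * u)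
noncomputable def I0 (s u : ℤ) : Finset ℤ := Ioc (s - u) s
noncomputable def J0 (s D u : ℤ) : Finset ℤ := Ioc (s + D) (s + D + u)

/-- `N(I,I) + N(I',I') ≤ N(I',I)` -/
lemma self_le (G : Geo k n s D u) {i j : ℕ} (hij : i < j) (hjk : j < k) :
    N k n i j (I1 s u) (I1 s u) + N k n i j (I0 s u) (I0 s u) ≤ N k n i j (I0 s u) (I1 s u) := by
  have hgap := aux_gap G
  obtain ⟨hk, hu, hD, hs, hn, hdvd⟩ := G
  have hk' : (3 : ℤ) ≤ k := by exact_mod_cast hk
  have hij' : (i : ℤ) + 1 ≤ j := by exact_mod_cast hij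
  have hjk' : (j : ℤ) + 1 ≤ k := by exact_mod_cast hjk
  have hi0 : (0 : ℤ) ≤ i := by positivity
  obtain ⟨w, hw⟩ := hdvd (j - i) (by omega) (by omega)
  have hgcast : ((j - i : ℕ) : ℤ) = (j : ℤ) - i := by push_cast [Nat.cast_sub hij.le]; ring
  rw [hgcast] at hw
  -- tau = 3 w
  have hw1 : 1 ≤ w := by
    by_contra hcon
    push Not at hcon
    have : ((j : ℤ) - i) * w ≤ 0 := mul_nonpos_of_nonneg_of_nonpos (by linarith) (by linarith)
    linarith
  have hwu : w ≤ u := by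
    rw [hw]; nlinarith
  have hjw : (j : ℤ) * w ≤ ((k : ℤ) - 1) * u := mul_le_mul (by linarith) hwu (by linarith) (by linarith)
  have hkw : ((k : ℤ) - 1) * w ≤ ((k : ℤ) - 1) * u := mul_le_mul_of_nonneg_left hwu (by linarith)
  unfold N
  rw [← Finset.card_union_of_disjoint]
  · refine Finset.card_le_card_of_injOn
      (fun p : ℤ × ℤ => if s + u < p.1 + i * p.2 then (p.1 - j * (3 * w), p.2 + 3 * w)
        else (p.1 + ((i : ℤ) + j) * p.2 - i * (3 * w), 3 * w - p.2)) ?_ ?_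
    · intro p hp
      simp only [coe_union, coe_filter, Set.mem_union, Set.mem_setOf_eq, mem_T (by omega : 2 ≤ k),
        I1, I0, mem_Ioc] at hp
      simp only [coe_filter, Set.mem_setOf_eq, mem_T (by omega : 2 ≤ k), I1, I0, mem_Ioc]
      rcases hp with ⟨⟨ha, hd, he⟩, ⟨hx1, hx2⟩, hy1, hy2⟩ | ⟨⟨ha, hd, he⟩, ⟨hx1, hx2⟩, hy1, hy2⟩
      · rw [if_pos (by linarith)]
        have hdu : p.2 ≤ u := by
          have : ((j : ℤ) - i) * p.2 ≤ u := by nlinarith
          nlinarith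
        have hid : (i : ℤ) * p.2 ≤ ((k : ℤ) - 1) * u := mul_le_mul (by linarith) hdu (by linarith) (by linarith)
        have hkd : ((k : ℤ) - 1) * p.2 ≤ ((k : ℤ) - 1) * u := mul_le_mul_of_nonneg_left hdu (by linarith)
        have hid0 : 0 ≤ (i : ℤ) * p.2 := by positivity
        refine ⟨⟨?_, ?_, ?_⟩, ⟨?_, ?_⟩, ?_, ?_⟩ <;> dsimp only
        · nlinarith
        · linarith
        · have : 0 ≤ (j : ℤ) * w := by positivity
          nlinarith
        · nlinarith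
        · nlinarith
        · nlinarith
        · nlinarith
      · rw [if_neg (by linarith)]
        have hdw : p.2 < w := by
          have : ((j : ℤ) - i) * p.2 < ((j : ℤ) - i) * w := by rw [← hw]; linarith
          exact lt_of_mul_lt_mul_left this (by linarith)
        have hid : (i : ℤ) * w ≤ ((k : ℤ) - 1) * u := mul_le_mul (by linarith) hwu (by linarith) (by linarith)
        have hid0 : 0 ≤ (i : ℤ) * p.2 := by positivity
        have hkd0 : 0 ≤ ((k : ℤ) - 1) * p.2 := mul_nonneg (by linarith) (by linarith)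
        refine ⟨⟨?_, ?_, ?_⟩, ⟨?_, ?_⟩, ?_, ?_⟩ <;> dsimp only
        · nlinarith
        · linarith
        · have hiw : 0 ≤ (i : ℤ) * w := by positivity
          have : (i : ℤ) * p.2 ≤ ((k : ℤ) - 1) * p.2 := mul_le_mul_of_nonneg_right (by linarith) (by linarith)
          nlinarith
        · nlinarith
        · nlinarith
        · nlinarith
        · nlinarith
    · intro p hp q hq hpq
      simp only [coe_union, coe_filter, Set.mem_union, Set.mem_setOf_eq, mem_T (by omega : 2 ≤ k),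
        I1, I0, mem_Ioc] at hp hq
      dsimp only at hpq
      have hd1 : 1 ≤ p.2 := by rcases hp with h | h <;> exact h.1.2.1
      have hd2 : 1 ≤ q.2 := by rcases hq with h | h <;> exact h.1.2.1
      split_ifs at hpq with h1 h2 h2
      · rw [Prod.mk.injEq] at hpq
        refine Prod.ext (by linarith [hpq.1]) (by linarith [hpq.2])
      · rw [Prod.mk.injEq] at hpq
        exfalso; linarith [hpq.2]
      · rw [Prod.mk.injEq] at hpq
        exfalso; linarith [hpq.2]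
      · rw [Prod.mk.injEq] at hpq
        have h3 : p.2 = q.2 := by linarith [hpq.2]
        refine Prod.ext ?_ h3
        have := hpq.1
        rw [h3] at this
        linarith
  · rw [Finset.disjoint_left]
    intro p hp hq
    simp only [mem_filter, I1, I0, mem_Ioc] at hp hq
    linarith [hp.2.1.1, hq.2.1.2]

/-- `N(I',J) ≤ N(I,J)` -/
lemma cross_le (G : Geo k n s D u) {i j : ℕ} (hij : i < j) (hjk : j < k) :
    N k n i j (I0 s u) (J0 s D u) ≤ N k n i j (I1 s u) (J0 s D u) := by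
  have hgap := aux_gap G
  obtain ⟨hk, hu, hD, hs, hn, hdvd⟩ := G
  have hk' : (3 : ℤ) ≤ k := by exact_mod_cast hk
  have hij' : (i : ℤ) + 1 ≤ j := by exact_mod_cast hij
  have hjk' : (j : ℤ) + 1 ≤ k := by exact_mod_cast hjk
  have hi0 : (0 : ℤ) ≤ i := by positivity
  obtain ⟨w, hw⟩ := hdvd (j - i) (by omega) (by omega)
  have hgcast : ((j - i : ℕ) : ℤ) = (j : ℤ) - i := by push_cast [Nat.cast_sub hij.le]; ring
  rw [hgcast] at hw
  have hw1 : 1 ≤ w := by
    by_contra hcon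
    push Not at hcon
    have : ((j : ℤ) - i) * w ≤ 0 := mul_nonpos_of_nonneg_of_nonpos (by linarith) (by linarith)
    linarith
  unfold N
  refine Finset.card_le_card_of_injOn
      (fun p : ℤ × ℤ => (p.1 + 3 * u + i * (3 * w), p.2 - 3 * w)) ?_ ?_
  · intro p hp
    simp only [coe_filter, Set.mem_setOf_eq, mem_T (by omega : 2 ≤ k),
        I0, J0, mem_Ioc] at hp
    simp only [coe_filter, Set.mem_setOf_eq, mem_T (by omega : 2 ≤ k), I1, J0, mem_Ioc]
    obtain ⟨⟨ha, hd, he⟩, ⟨hx1, hx2⟩, hy1, hy2⟩ := hp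
    have hdw : 3 * w < p.2 := by
      have : ((j : ℤ) - i) * (3 * w) < ((j : ℤ) - i) * p.2 := by nlinarith
      exact lt_of_mul_lt_mul_left this (by linarith)
    have hiw : 0 ≤ (i : ℤ) * w := by positivity
    refine ⟨⟨?_, ?_, ?_⟩, ⟨?_, ?_⟩, ?_, ?_⟩
    · nlinarith
    · linarith
    · have : (j : ℤ) * w ≤ ((k : ℤ) - 1) * w := mul_le_mul_of_nonneg_right (by linarith) (by linarith)
      nlinarith
    · nlinarith
    · nlinarith
    · nlinarith
    · nlinarith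
  · intro p _ q _ hpq
    dsimp only at hpq
    rw [Prod.mk.injEq] at hpq
    refine Prod.ext (by linarith [hpq.1]) (by linarith [hpq.2])

/-- `N(J,I') = 0` -/
lemma back_zero (G : Geo k n s D u) {i j : ℕ} (hij : i < j) (hjk : j < k) :
    N k n i j (J0 s D u) (I0 s u) = 0 := by
  have hij' : (i : ℤ) + 1 ≤ j := by exact_mod_cast hij
  have hk2 : 2 ≤ k := by have := G.hk; omega
  unfold N
  rw [Finset.card_eq_zero, Finset.filter_eq_empty_iff]
  intro p hp
  rw [mem_T hk2] at hp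
  simp only [J0, I0, mem_Ioc]
  rintro ⟨⟨h1, h2⟩, h3, h4⟩
  have h5 := G.hD
  have h6 := G.hu
  have : 0 ≤ ((j : ℤ) - i) * p.2 := mul_nonneg (by linarith) (by linarith [hp.2.1])
  nlinarith

lemma card_Ioc_add (a u : ℤ) (hu : 1 ≤ u) : (((Ioc a (a + u)).card : ℕ) : ℤ) = u := by
  rw [Int.card_Ioc]
  have : a + u - a = u := by ring
  rw [this]
  exact Int.toNat_of_nonneg (by linarith)

/-- `N(J,J) ≤ u²` -/
lemma JJ_le (G : Geo k n s D u) {i j : ℕ} (hij : i < j) :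
    (N k n i j (J0 s D u) (J0 s D u) : ℤ) ≤ u ^ 2 := by
  have hij' : (i : ℤ) + 1 ≤ j := by exact_mod_cast hij
  have h1 : N k n i j (J0 s D u) (J0 s D u) ≤ ((J0 s D u) ×ˢ (J0 s D u)).card := by
    unfold N
    refine Finset.card_le_card_of_injOn (fun p : ℤ × ℤ => (p.1 + i * p.2, p.1 + j * p.2)) ?_ ?_
    · intro p hp
      simp only [coe_filter, Set.mem_setOf_eq] at hp
      simp only [coe_product, Set.mem_prod, mem_coe]
      exact hp.2
    · intro p _ q _ hpq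
      dsimp only at hpq
      rw [Prod.mk.injEq] at hpq
      have h2 : ((j : ℤ) - i) * p.2 = ((j : ℤ) - i) * q.2 := by nlinarith [hpq.1, hpq.2]
      have h3 : p.2 = q.2 := mul_left_cancel₀ (by linarith) h2
      refine Prod.ext ?_ h3
      have := hpq.1
      rw [h3] at this
      linarith
  rw [Finset.card_product] at h1
  have h2 : (((J0 s D u).card : ℕ) : ℤ) = u := card_Ioc_add _ _ G.hu
  calc (N k n i j (J0 s D u) (J0 s D u) : ℤ) ≤ (((J0 s D u).card * (J0 s D u).card : ℕ) : ℤ) := by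
        exact_mod_cast h1
    _ = u ^ 2 := by push_cast; rw [h2]; ring

/-- `N₀₁(I',J) = 0` -/
lemma cross01_zero (G : Geo k n s D u) : N k n 0 1 (I0 s u) (J0 s D u) = 0 := by
  have hk : (3 : ℤ) ≤ k := by exact_mod_cast G.hk
  have hk2 : 2 ≤ k := by have := G.hk; omega
  have hn := G.hn
  unfold N
  rw [Finset.card_eq_zero, Finset.filter_eq_empty_iff]
  intro p hp
  rw [mem_T hk2] at hp
  simp only [J0, I0, mem_Ioc]
  rintro ⟨⟨h1, h2⟩, h3, h4⟩
  push_cast at h1 h2 h3 h4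
  have h5 : s + D < p.1 + p.2 := by linarith
  have h6 : p.1 ≤ s := by linarith
  -- p.1 + (k-1) p.2 = (k-1)(p.1+p.2) - (k-2) p.1
  have h7 : ((k : ℤ) - 1) * (s + D + 1) ≤ ((k : ℤ) - 1) * (p.1 + p.2) :=
    mul_le_mul_of_nonneg_left (by linarith) (by linarith)
  have h8 : ((k : ℤ) - 2) * p.1 ≤ ((k : ℤ) - 2) * s :=
    mul_le_mul_of_nonneg_left (by linarith) (by linarith)
  nlinarith [hp.2.2]

/-- `N₀₁(I,J) ≥ u²` -/
lemma cross01_ge (G : Geo k n s D u) : u ^ 2 ≤ (N k n 0 1 (I1 s u) (J0 s D u) : ℤ) := by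
  have hgap := aux_gap G
  obtain ⟨hk, hu, hD, hs, hn, hdvd⟩ := G
  have hk' : (3 : ℤ) ≤ k := by exact_mod_cast hk
  have h1 : ((I1 s u) ×ˢ (J0 s D u)).card ≤ N k n 0 1 (I1 s u) (J0 s D u) := by
    unfold N
    refine Finset.card_le_card_of_injOn (fun p : ℤ × ℤ => (p.1, p.2 - p.1)) ?_ ?_
    · intro p hp
      simp only [coe_product, Set.mem_prod, mem_coe, I1, J0, mem_Ioc] at hp
      simp only [coe_filter, Set.mem_setOf_eq, mem_T (by omega : 2 ≤ k), I1, J0, mem_Ioc]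
      obtain ⟨⟨hx1, hx2⟩, hy1, hy2⟩ := hp
      have h7 : ((k : ℤ) - 1) * p.2 ≤ ((k : ℤ) - 1) * (s + D + u) :=
        mul_le_mul_of_nonneg_left (by linarith) (by linarith)
      have h8 : ((k : ℤ) - 2) * (s + 2 * u) ≤ ((k : ℤ) - 2) * p.1 :=
        mul_le_mul_of_nonneg_left (by linarith) (by linarith)
      have h9 : 0 ≤ ((k : ℤ) - 3) * u := mul_nonneg (by linarith) (by linarith)
      refine ⟨⟨?_, ?_, ?_⟩, ⟨?_, ?_⟩, ?_, ?_⟩
      · nlinarith
      · linarith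
      · nlinarith
      · push_cast; linarith
      · push_cast; linarith
      · push_cast; linarith
      · push_cast; linarith
    · intro p _ q _ hpq
      dsimp only at hpq
      rw [Prod.mk.injEq] at hpq
      refine Prod.ext (by linarith [hpq.1]) (by linarith [hpq.1, hpq.2])
  rw [Finset.card_product] at h1
  have h2 : (((J0 s D u).card : ℕ) : ℤ) = u := card_Ioc_add _ _ hu
  have h3 : (((I1 s u).card : ℕ) : ℤ) = u := by
    have : I1 s u = Ioc (s + 2 * u) (s + 2 * u + u) := by unfold I1; congr 1; ring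
    rw [this]; exact card_Ioc_add _ _ hu
  calc u ^ 2 = (((I1 s u).card * (J0 s D u).card : ℕ) : ℤ) := by
        push_cast; rw [h2, h3]; ring
    _ ≤ _ := by exact_mod_cast h1

end

/-- the test function -/
noncomputable def phi (k : ℕ) (s D u : ℤ) (x : ℤ) : ℝ :=
  ind (I1 s u) x - ind (I0 s u) x - (1 / (k : ℝ) ^ 2) * ind (J0 s D u) x

/-- pair form -/
noncomputable def QQ (k : ℕ) (n : ℤ) (f : ℤ → ℝ) : ℝ :=
  ∑ p ∈ T k n, ∑ j ∈ range k, ∑ i ∈ range j, f (p.1 + i * p.2) * f (p.1 + j * p.2)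

lemma pair_expand (k : ℕ) (n s D u : ℤ) (i j : ℕ) :
    ∑ p ∈ T k n, phi k s D u (p.1 + i * p.2) * phi k s D u (p.1 + j * p.2) =
      ((N k n i j (I1 s u) (I1 s u) : ℝ) + N k n i j (I0 s u) (I0 s u)
        - N k n i j (I0 s u) (I1 s u)) - N k n i j (I1 s u) (I0 s u)
        - (1 / (k : ℝ) ^ 2) * ((N k n i j (I1 s u) (J0 s D u) : ℝ) - N k n i j (I0 s u) (J0 s D u))
        - (1 / (k : ℝ) ^ 2) * ((N k n i j (J0 s D u) (I1 s u) : ℝ) - N k n i j (J0 s D u) (I0 s u))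
        + (1 / (k : ℝ) ^ 2) ^ 2 * (N k n i j (J0 s D u) (J0 s D u) : ℝ) := by
  simp only [← sum_ind]
  simp only [Finset.mul_sum, ← Finset.sum_sub_distrib, ← Finset.sum_add_distrib]
  refine Finset.sum_congr rfl fun p _ => ?_
  unfold phi
  ring

lemma pair_le {k : ℕ} {n s D u : ℤ} (G : Geo k n s D u) {i j : ℕ} (hij : i < j) (hjk : j < k) :
    ∑ p ∈ T k n, phi k s D u (p.1 + i * p.2) * phi k s D u (p.1 + j * p.2) ≤
      (1 / (k : ℝ) ^ 2) ^ 2 * (u : ℝ) ^ 2 := by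
  rw [pair_expand]
  have h1 : (N k n i j (I1 s u) (I1 s u) : ℝ) + N k n i j (I0 s u) (I0 s u) ≤
      N k n i j (I0 s u) (I1 s u) := by exact_mod_cast self_le G hij hjk
  have h2 : (0 : ℝ) ≤ N k n i j (I1 s u) (I0 s u) := by positivity
  have h3 : (N k n i j (I0 s u) (J0 s D u) : ℝ) ≤ N k n i j (I1 s u) (J0 s D u) := by
    exact_mod_cast cross_le G hij hjk
  have h4 : (N k n i j (J0 s D u) (I0 s u) : ℝ) = 0 := by exact_mod_cast back_zero G hij hjk
  have h5 : (0 : ℝ) ≤ N k n i j (J0 s D u) (I1 s u) := by positivity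
  have h6 : (N k n i j (J0 s D u) (J0 s D u) : ℝ) ≤ (u : ℝ) ^ 2 := by exact_mod_cast JJ_le G hij
  have hb : (0 : ℝ) ≤ 1 / (k : ℝ) ^ 2 := by positivity
  rw [h4]
  have e1 := mul_nonneg hb (sub_nonneg.mpr h3)
  have e2 := mul_nonneg hb h5
  have e3 := mul_le_mul_of_nonneg_left h6 (sq_nonneg (1 / (k : ℝ) ^ 2))
  nlinarith

lemma pair01_le {k : ℕ} {n s D u : ℤ} (G : Geo k n s D u) :
    ∑ p ∈ T k n, phi k s D u (p.1 + (0 : ℕ) * p.2) * phi k s D u (p.1 + (1 : ℕ) * p.2) ≤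
      (1 / (k : ℝ) ^ 2) ^ 2 * (u : ℝ) ^ 2 - (1 / (k : ℝ) ^ 2) * (u : ℝ) ^ 2 := by
  rw [pair_expand]
  have hk3 := G.hk
  have h1 : (N k n 0 1 (I1 s u) (I1 s u) : ℝ) + N k n 0 1 (I0 s u) (I0 s u) ≤
      N k n 0 1 (I0 s u) (I1 s u) := by exact_mod_cast self_le G (by omega) (by omega)
  have h2 : (0 : ℝ) ≤ N k n 0 1 (I1 s u) (I0 s u) := by positivity
  have h3 : (N k n 0 1 (I0 s u) (J0 s D u) : ℝ) = 0 := by exact_mod_cast cross01_zero G
  have h3' : (u : ℝ) ^ 2 ≤ N k n 0 1 (I1 s u) (J0 s D u) := by exact_mod_cast cross01_ge G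
  have h4 : (N k n 0 1 (J0 s D u) (I0 s u) : ℝ) = 0 := by
    exact_mod_cast back_zero G (by omega) (by omega)
  have h5 : (0 : ℝ) ≤ N k n 0 1 (J0 s D u) (I1 s u) := by positivity
  have h6 : (N k n 0 1 (J0 s D u) (J0 s D u) : ℝ) ≤ (u : ℝ) ^ 2 := by
    exact_mod_cast JJ_le G (by omega)
  have hb : (0 : ℝ) ≤ 1 / (k : ℝ) ^ 2 := by positivity
  rw [h4, h3]
  have e1 := mul_le_mul_of_nonneg_left h3' hb
  have e2 := mul_nonneg hb h5
  have e3 := mul_le_mul_of_nonneg_left h6 (sq_nonneg (1 / (k : ℝ) ^ 2))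
  nlinarith

/-- the quadratic form is at most `- u² / (2 k²)` -/
lemma QQ_le {k : ℕ} {n s D u : ℤ} (G : Geo k n s D u) :
    QQ k n (phi k s D u) ≤ - (u : ℝ) ^ 2 / (2 * (k : ℝ) ^ 2) := by
  have hk3 := G.hk
  have hkR : (3 : ℝ) ≤ k := by exact_mod_cast hk3
  unfold QQ
  rw [Finset.sum_comm]
  have hcomm : ∀ j ∈ range k, ∑ p ∈ T k n, ∑ i ∈ range j,
      phi k s D u (p.1 + i * p.2) * phi k s D u (p.1 + j * p.2) =
      ∑ i ∈ range j, ∑ p ∈ T k n,
        phi k s D u (p.1 + i * p.2) * phi k s D u (p.1 + j * p.2) := by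
    intro j _
    rw [Finset.sum_comm]
  rw [Finset.sum_congr rfl hcomm]
  set c : ℝ := (1 / (k : ℝ) ^ 2) ^ 2 * (u : ℝ) ^ 2 with hc
  set e : ℝ := (1 / (k : ℝ) ^ 2) * (u : ℝ) ^ 2 with he
  have hbound : ∀ j ∈ range k, ∑ i ∈ range j, ∑ p ∈ T k n,
        phi k s D u (p.1 + i * p.2) * phi k s D u (p.1 + j * p.2) ≤
        (j : ℝ) * c - (if j = 1 then e else 0) := by
    intro j hj
    rw [mem_range] at hj
    by_cases hj1 : j = 1
    · subst hj1
      rw [Finset.sum_range_one, if_pos rfl]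
      have := pair01_le G
      push_cast at this ⊢
      linarith
    · rw [if_neg hj1]
      calc _ ≤ ∑ i ∈ range j, c := by
            refine Finset.sum_le_sum fun i hi => ?_
            rw [mem_range] at hi
            exact pair_le G hi hj
        _ = (j : ℝ) * c - 0 := by simp
  refine (Finset.sum_le_sum hbound).trans ?_
  rw [Finset.sum_sub_distrib, ← Finset.sum_mul, Finset.sum_ite_eq']
  rw [if_pos (by rw [mem_range]; omega)]
  have hsum : (∑ j ∈ range k, (j : ℝ)) * 2 = k * (k - 1) := by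
    have := Finset.sum_range_id_mul_two k
    have h2 : ((∑ i ∈ range k, i : ℕ) : ℝ) * 2 = (k : ℝ) * ((k - 1 : ℕ) : ℝ) := by
      exact_mod_cast this
    rw [Nat.cast_sub (by omega)] at h2
    push_cast at h2
    exact h2
  have hc0 : 0 ≤ c := by positivity
  have hk0 : (0 : ℝ) < (k : ℝ) ^ 2 := by positivity
  have hce : (k : ℝ) ^ 2 * c = e := by
    rw [hc, he]
    field_simp
  have heu : - (u : ℝ) ^ 2 / (2 * (k : ℝ) ^ 2) = - e / 2 := by
    rw [he]; field_simp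
  rw [heu]
  nlinarith

end Pool.Agent.W323.BR
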