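import Pool.Agent.W323.BRQuad

/-!
Second order expansion of a product, and derandomisation.
-/

namespace Pool.Agent.W323.BR

open Finset

noncomputable def E1 (y : ℕ → ℝ) (k : ℕ) : ℝ := ∑ i ∈ range k, y i
noncomputable def E2 (y : ℕ → ℝ) (k : ℕ) : ℝ := ∑ j ∈ range k, ∑ i ∈ range j, y i * y j

/-- error constant -/
def CC : ℕ → ℝ
  | 0 => 0
  | (k + 1) => 2 * CC k + (k : ℝ) ^ 2

lemma CC_nonneg (k : ℕ) : 0 ≤ CC k := by
  induction k with
  | zero => simp [CC]
  | succ k ih => simp only [CC]; positivity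

lemma E1_abs (y : ℕ → ℝ) (hy : ∀ i, |y i| ≤ 1) (k : ℕ) : |E1 y k| ≤ k := by
  unfold E1
  refine (Finset.abs_sum_le_sum_abs _ _).trans ?_
  calc ∑ i ∈ range k, |y i| ≤ ∑ i ∈ range k, (1 : ℝ) := Finset.sum_le_sum fun i _ => hy i
    _ = k := by simp

lemma E2_succ (y : ℕ → ℝ) (k : ℕ) : E2 y (k + 1) = E2 y k + E1 y k * y k := by
  unfold E2 E1
  rw [Finset.sum_range_succ, Finset.sum_mul]

lemma E1_succ (y : ℕ → ℝ) (k : ℕ) : E1 y (k + 1) = E1 y k + y k := by
  unfold E1
  rw [Finset.sum_range_succ]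

lemma E2_abs (y : ℕ → ℝ) (hy : ∀ i, |y i| ≤ 1) (k : ℕ) : |E2 y k| ≤ (k : ℝ) ^ 2 := by
  induction k with
  | zero => simp [E2]
  | succ k ih =>
    rw [E2_succ]
    have h1 := E1_abs y hy k
    have h2 : |E1 y k * y k| ≤ k := by
      rw [abs_mul]
      calc |E1 y k| * |y k| ≤ k * 1 := mul_le_mul h1 (hy k) (abs_nonneg _) (by positivity)
        _ = k := by ring
    refine (abs_add_le _ _).trans ?_
    push_cast
    nlinarith

lemma taylor (y : ℕ → ℝ) (hy : ∀ i, |y i| ≤ 1) (e : ℝ) (he : |e| ≤ 1) (k : ℕ) :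
    |∏ i ∈ range k, (1 + e * y i) - (1 + e * E1 y k + e ^ 2 * E2 y k)| ≤ CC k * |e| ^ 3 := by
  induction k with
  | zero => simp [E1, E2, CC]
  | succ k ih =>
    rw [Finset.prod_range_succ, E2_succ, E1_succ]
    set P := ∏ i ∈ range k, (1 + e * y i) with hP
    have key : P * (1 + e * y k) - (1 + e * (E1 y k + y k) + e ^ 2 * (E2 y k + E1 y k * y k)) =
        (P - (1 + e * E1 y k + e ^ 2 * E2 y k)) * (1 + e * y k) + e ^ 3 * (y k * E2 y k) := by ring
    rw [key]
    refine (abs_add_le _ _).trans ?_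
    rw [abs_mul, abs_mul, abs_pow]
    have h1 : |1 + e * y k| ≤ 2 := by
      refine (abs_add_le _ _).trans ?_
      rw [abs_one, abs_mul]
      have : |e| * |y k| ≤ 1 * 1 := mul_le_mul he (hy k) (abs_nonneg _) (by norm_num)
      linarith
    have h2 : |y k * E2 y k| ≤ (k : ℝ) ^ 2 := by
      rw [abs_mul]
      calc |y k| * |E2 y k| ≤ 1 * (k : ℝ) ^ 2 :=
            mul_le_mul (hy k) (E2_abs y hy k) (abs_nonneg _) (by norm_num)
        _ = _ := by ring
    have h3 : |P - (1 + e * E1 y k + e ^ 2 * E2 y k)| * |1 + e * y k| ≤ (CC k * |e| ^ 3) * 2 :=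
      mul_le_mul ih h1 (abs_nonneg _) (mul_nonneg (CC_nonneg k) (by positivity))
    have h4 : |e| ^ 3 * |y k * E2 y k| ≤ |e| ^ 3 * (k : ℝ) ^ 2 :=
      mul_le_mul_of_nonneg_left h2 (by positivity)
    simp only [CC]
    linarith

/-- symmetrised expansion -/
lemma taylor_sym (y : ℕ → ℝ) (hy : ∀ i, |y i| ≤ 1) (e : ℝ) (he0 : 0 ≤ e) (he : e ≤ 1) (k : ℕ) :
    ∏ i ∈ range k, (1 + e * y i) + ∏ i ∈ range k, (1 - e * y i) ≤
      2 + 2 * e ^ 2 * E2 y k + 2 * CC k * e ^ 3 := by
  have h1 := taylor y hy e (by rw [abs_of_nonneg he0]; exact he) k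
  have h2 := taylor y hy (-e) (by rw [abs_neg, abs_of_nonneg he0]; exact he) k
  rw [abs_of_nonneg he0] at h1
  rw [abs_neg, abs_of_nonneg he0] at h2
  have h1' := (abs_le.mp h1).2
  have h2' := (abs_le.mp h2).2
  have h3 : ∏ i ∈ range k, (1 - e * y i) = ∏ i ∈ range k, (1 + -e * y i) :=
    Finset.prod_congr rfl fun i _ => by ring
  rw [h3]
  nlinarith

/-- number of monochromatic pairs `(a,d)` -/
noncomputable def mono (k : ℕ) (n : ℤ) {r : ℕ} (χ : ℤ → Fin r) : ℕ :=
  ((T k n).filter (fun p : ℤ × ℤ => ∀ i < k, χ (p.1 + i * p.2) = χ p.1)).card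

/-- expected number of monochromatic progressions -/
noncomputable def FF (k : ℕ) (n : ℤ) {r : ℕ} (P : ℤ → Fin r → ℝ) : ℝ :=
  ∑ p ∈ T k n, ∑ c : Fin r, ∏ i ∈ range k, P (p.1 + i * p.2) c

/-- point mass -/
noncomputable def pt {r : ℕ} (χ : ℤ → Fin r) (x : ℤ) (c : Fin r) : ℝ := if χ x = c then 1 else 0

lemma FF_pt (k : ℕ) (hk : 1 ≤ k) (n : ℤ) {r : ℕ} (χ : ℤ → Fin r) :
    FF k n (pt χ) = mono k n χ := by
  unfold FF mono
  rw [Finset.card_filter]
  push_cast
  refine Finset.sum_congr rfl fun p _ => ?_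
  have h1 : ∀ c : Fin r, ∏ i ∈ range k, pt χ (p.1 + i * p.2) c =
      if (∀ i < k, χ (p.1 + i * p.2) = c) then 1 else 0 := by
    intro c
    unfold pt
    rw [Finset.prod_ite_zero]
    simp
  simp_rw [h1]
  by_cases h : ∀ i < k, χ (p.1 + i * p.2) = χ p.1
  · rw [if_pos h]
    rw [Finset.sum_eq_single (χ p.1)]
    · rw [if_pos h]
    · intro c _ hc
      rw [if_neg]
      intro h2
      have := h2 0 (by omega)
      simp at this
      exact hc this.symm
    · intro h2; exact absurd (Finset.mem_univ _) h2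
  · rw [if_neg h]
    refine Finset.sum_eq_zero fun c _ => ?_
    rw [if_neg]
    intro h2
    have h0 := h2 0 (by omega)
    simp at h0
    exact h fun i hi => by rw [h2 i hi, h0]

/-- affinity in one coordinate, single progression -/
lemma affine_one {r : ℕ} (k : ℕ) (P : ℤ → Fin r → ℝ) (x a d : ℤ) (hd : 1 ≤ d)
    (hP : ∑ c, P x c = 1) :
    ∑ c : Fin r, ∏ i ∈ range k, P (a + i * d) c =
      ∑ c' : Fin r, P x c' * ∑ c : Fin r, ∏ i ∈ range k,
        (Function.update P x (fun c'' => if c' = c'' then (1 : ℝ) else 0)) (a + i * d) c := by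
  classical
  by_cases hx : ∃ i0 ∈ range k, a + (i0 : ℤ) * d = x
  · obtain ⟨i0, hi0, hx0⟩ := hx
    have hinj : ∀ i ∈ (range k).erase i0, a + (i : ℤ) * d ≠ x := by
      intro i hi h
      have h1 : (i : ℤ) * d = i0 * d := by linarith
      have h2 : (i : ℤ) = i0 := mul_right_cancel₀ (by linarith) h1
      have h3 : i = i0 := by exact_mod_cast h2
      exact (Finset.ne_of_mem_erase hi) h3
    have e1 : ∀ c, ∏ i ∈ range k, P (a + i * d) c =
        P x c * ∏ i ∈ (range k).erase i0, P (a + i * d) c := by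
      intro c
      rw [← Finset.mul_prod_erase _ _ hi0, hx0]
    have e2 : ∀ c' c, ∏ i ∈ range k,
        (Function.update P x (fun c'' => if c' = c'' then (1 : ℝ) else 0)) (a + i * d) c =
        (if c' = c then (1 : ℝ) else 0) * ∏ i ∈ (range k).erase i0, P (a + i * d) c := by
      intro c' c
      rw [← Finset.mul_prod_erase _ _ hi0, hx0, Function.update_self]
      congr 1
      refine Finset.prod_congr rfl fun i hi => ?_
      rw [Function.update_of_ne (hinj i hi)]
    simp_rw [e1, e2]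
    refine Finset.sum_congr rfl fun c' _ => ?_
    congr 1
    simp
  · push Not at hx
    have e2 : ∀ c' c, ∏ i ∈ range k,
        (Function.update P x (fun c'' => if c' = c'' then (1 : ℝ) else 0)) (a + i * d) c =
        ∏ i ∈ range k, P (a + i * d) c := by
      intro c' c
      refine Finset.prod_congr rfl fun i hi => ?_
      rw [Function.update_of_ne (hx i hi)]
    simp_rw [e2]
    rw [← Finset.sum_mul, hP, one_mul]

lemma affine_FF {r : ℕ} (k : ℕ) (hk : 2 ≤ k) (n : ℤ) (P : ℤ → Fin r → ℝ) (x : ℤ)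
    (hP : ∑ c, P x c = 1) :
    FF k n P = ∑ c' : Fin r, P x c' *
      FF k n (Function.update P x (fun c'' => if c' = c'' then (1 : ℝ) else 0)) := by
  unfold FF
  simp_rw [Finset.mul_sum (s := T k n)]
  rw [Finset.sum_comm (s := (Finset.univ : Finset (Fin r))) (t := T k n)]
  refine Finset.sum_congr rfl fun p hp => ?_
  exact affine_one k P x p.1 p.2 ((mem_T hk).mp hp).2.1 hP

/-- there is a colour which does not increase the expectation -/
lemma exists_color {r : ℕ} (k : ℕ) (hk : 2 ≤ k) (n : ℤ) (P : ℤ → Fin r → ℝ) (x : ℤ)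
    (hP : ∑ c, P x c = 1) (hP0 : ∀ c, 0 ≤ P x c) :
    ∃ c' : Fin r, FF k n (Function.update P x (fun c'' => if c' = c'' then (1 : ℝ) else 0)) ≤
      FF k n P := by
  by_contra hcon
  push Not at hcon
  have h1 := affine_FF k hk n P x hP
  have h2 : ∑ c' : Fin r, P x c' * FF k n P < ∑ c' : Fin r, P x c' *
      FF k n (Function.update P x (fun c'' => if c' = c'' then (1 : ℝ) else 0)) := by
    have hex : ∃ c ∈ (Finset.univ : Finset (Fin r)), 0 < P x c := by
      by_contra hall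
      push Not at hall
      have : ∑ c, P x c ≤ 0 := Finset.sum_nonpos fun c hc => hall c hc
      linarith
    obtain ⟨c0, _, hc0⟩ := hex
    refine Finset.sum_lt_sum (fun c _ => mul_le_mul_of_nonneg_left (hcon c).le (hP0 c)) ⟨c0, Finset.mem_univ _, ?_⟩
    exact mul_lt_mul_of_pos_left (hcon c0) hc0
  rw [← h1, ← Finset.sum_mul, hP, one_mul] at h2
  exact lt_irrefl _ h2

/-- derandomisation on `[1, m]` -/
lemma derand {r : ℕ} (k : ℕ) (hk : 2 ≤ k) (n : ℤ) (P : ℤ → Fin r → ℝ)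
    (hP : ∀ x, ∑ c, P x c = 1) (hP0 : ∀ x c, 0 ≤ P x c) (m : ℕ) :
    ∃ χ : ℤ → Fin r, FF k n (fun x c => if 1 ≤ x ∧ x ≤ m then pt χ x c else P x c) ≤ FF k n P := by
  classical
  induction m with
  | zero =>
    have hne : Nonempty (Fin r) := by
      by_contra h
      rw [not_nonempty_iff] at h
      have := hP 0
      simp at this
    refine ⟨fun _ => hne.some, le_of_eq ?_⟩
    congr 1
    funext x c
    rw [if_neg]
    push_cast
    intro h; linarith [h.1, h.2]
  | succ m ih =>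
    obtain ⟨χ, hχ⟩ := ih
    set P' : ℤ → Fin r → ℝ := fun x c => if 1 ≤ x ∧ x ≤ m then pt χ x c else P x c with hP'
    have hx : P' ((m : ℤ) + 1) = P ((m : ℤ) + 1) := by
      funext c
      rw [hP']
      dsimp only
      rw [if_neg (by intro h; linarith [h.2])]
    obtain ⟨c', hc'⟩ := exists_color k hk n P' ((m : ℤ) + 1) (by rw [hx]; exact hP _)
      (by intro c; rw [hx]; exact hP0 _ c)
    refine ⟨Function.update χ ((m : ℤ) + 1) c', le_trans (le_of_eq ?_) (hc'.trans hχ)⟩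
    congr 1
    funext x c
    by_cases hxm : x = (m : ℤ) + 1
    · subst hxm
      rw [Function.update_self]
      rw [if_pos ⟨by linarith [Int.natCast_nonneg m], by push_cast; exact le_refl _⟩]
      unfold pt
      rw [Function.update_self]
    · rw [Function.update_of_ne hxm]
      rw [hP']
      dsimp only
      by_cases h1 : 1 ≤ x ∧ x ≤ m
      · rw [if_pos h1, if_pos ⟨h1.1, by push_cast; linarith [h1.2]⟩]
        unfold pt
        rw [Function.update_of_ne hxm]
      · rw [if_neg h1, if_neg]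
        intro h2
        apply h1
        refine ⟨h2.1, ?_⟩
        have := h2.2
        push_cast at this
        rcases lt_or_eq_of_le this with h3 | h3
        · exact Int.lt_add_one_iff.mp h3
        · exact absurd h3 hxm

/-- terms of a progression counted by `T` lie in `[1, n]` -/
lemma term_mem {k : ℕ} (hk : 2 ≤ k) {n : ℤ} {p : ℤ × ℤ} (hp : p ∈ T k n) {i : ℕ} (hi : i < k) :
    1 ≤ p.1 + i * p.2 ∧ p.1 + i * p.2 ≤ n := by
  rw [mem_T hk] at hp
  obtain ⟨h1, h2, h3⟩ := hp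
  have hi' : (i : ℤ) ≤ (k : ℤ) - 1 := by
    have : (i : ℤ) + 1 ≤ k := by exact_mod_cast hi
    linarith
  have h4 : (i : ℤ) * p.2 ≤ ((k : ℤ) - 1) * p.2 := mul_le_mul_of_nonneg_right hi' (by linarith)
  have h5 : 0 ≤ (i : ℤ) * p.2 := by positivity
  exact ⟨by linarith, by linarith⟩

lemma derand' {r : ℕ} (k : ℕ) (hk : 2 ≤ k) (n : ℕ) (P : ℤ → Fin r → ℝ)
    (hP : ∀ x, ∑ c, P x c = 1) (hP0 : ∀ x c, 0 ≤ P x c) :
    ∃ χ : ℤ → Fin r, (mono k n χ : ℝ) ≤ FF k n P := by
  obtain ⟨χ, hχ⟩ := derand k hk n P hP hP0 n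
  refine ⟨χ, le_trans (le_of_eq ?_) hχ⟩
  rw [← FF_pt k (by omega)]
  unfold FF
  refine Finset.sum_congr rfl fun p hp => Finset.sum_congr rfl fun c _ =>
    Finset.prod_congr rfl fun i hi => ?_
  rw [mem_range] at hi
  dsimp only
  rw [if_pos (term_mem hk hp hi)]

end Pool.Agent.W323.BR
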